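import Pool.Agent.Q71.WX.Fin

/-!
# A weakly mixing measure driven to the zero point mass by the XOR automaton
-/

namespace Pool.Agent.Results.MP_2e5000_an.WeaklyMixingToZero

open MeasureTheory Filter Topology Q71.WX

/-- A shift-invariant probability measure on `{0,1}^ℤ` is weakly mixing if
`N⁻¹ ∑_{n<N} |μ(A ∩ σ⁻ⁿB) - μ(A)μ(B)| → 0` for all Borel sets `A, B`. -/
def IsWeaklyMixing (μ : Measure (ℤ → Bool)) : Prop :=
  ∀ A B : Set (ℤ → Bool), MeasurableSet A → MeasurableSet B →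
    Tendsto (fun N : ℕ => (∑ n ∈ Finset.range N,
      |μ.real (A ∩ shift^[n] ⁻¹' B) - μ.real A * μ.real B|) / N) atTop (𝓝 0)

/-- **Q1, positive answer.** There is a weakly mixing shift-invariant Borel probability measure
`μ ≠ δ_0` on `{0,1}^ℤ` with `F^n(μ) → δ_0` weak-*, `F` the two-neighbour XOR automaton. -/
theorem result : ∃ μ : Measure (ℤ → Bool), IsProbabilityMeasure μ ∧ μ.map shift = μ ∧
    IsWeaklyMixing μ ∧ μ ≠ Measure.dirac (fun _ => false) ∧
    ∀ f : (ℤ → Bool) → ℝ, Continuous f →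
      Tendsto (fun n : ℕ => ∫ x, f x ∂(μ.map (xorCA^[n]))) atTop (𝓝 (f fun _ => false)) :=
  ⟨mu, inferInstance, mu_shift, fun _ _ hA hB => mu_mixing hA hB, mu_ne, fun _ hf => mu_conv hf⟩

end Pool.Agent.Results.MP_2e5000_an.WeaklyMixingToZero
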